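import Pool.Agent.W617.LG.StmII
/-! LG-STR (MP_7dd29b_gt): structure equations for a smooth adapted frame. -/
set_option autoImplicit false
open Topology Filter Set
open scoped ContDiff InnerProductSpace

namespace Pool.Agent.W137.LG
open Pool.Agent.W617.LG

variable {q : ℕ} {C : TF q} {τ : E q → ℝ}

/-- a vector orthogonal to `x` and the frame vanishes -/
lemma ext0 {x : E q} {e : Fin (q + 1) → E q} (h : AF C x e) (w : E q)
    (h0 : ⟪w, x⟫_ℝ = 0) (h1 : ∀ i, ⟪w, e i⟫_ℝ = 0) : w = 0 := by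
  have hxn : ‖x‖ ≠ 0 := norm_ne_zero_iff.2 h.x0
  have ho : Orthonormal ℝ (Fin.cons (‖x‖⁻¹ • x) e : Fin (q + 2) → E q) := by
    rw [orthonormal_iff_ite]
    intro i j
    refine Fin.cases ?_ (fun i => ?_) i
    · refine Fin.cases ?_ (fun j => ?_) j
      · simp only [Fin.cons_zero, inner_smul_left, inner_smul_right, real_inner_self_eq_norm_sq,
          if_true]
        simp only [conj_trivial]
        field_simp
      · simp [inner_smul_left, h.rad j, (Fin.succ_ne_zero j).symm]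
    · refine Fin.cases ?_ (fun j => ?_) j
      · rw [real_inner_comm]
        simp [inner_smul_left, h.rad i]
      · simp [h.on i j]
  have hc : Fintype.card (Fin (q + 2)) = Module.finrank ℝ (E q) := by simp
  let B := basisOfOrthonormalOfCardEqFinrank ho hc
  have hB : (B : Fin (q + 2) → E q) = Fin.cons (‖x‖⁻¹ • x) e :=
    coe_basisOfOrthonormalOfCardEqFinrank ho hc
  have hoB : Orthonormal ℝ B := by rw [hB]; exact ho
  let b := B.toOrthonormalBasis hoB
  have hb : (b : Fin (q + 2) → E q) = Fin.cons (‖x‖⁻¹ • x) e := by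
    rw [Module.Basis.coe_toOrthonormalBasis, hB]
  rw [← b.sum_repr' w]
  apply Finset.sum_eq_zero
  intro i _
  have : ⟪b i, w⟫_ℝ = 0 := by
    rw [hb]
    refine Fin.cases ?_ (fun i => ?_) i
    · simp only [Fin.cons_zero, inner_smul_left]
      rw [real_inner_comm, h0, mul_zero]
    · simp only [Fin.cons_succ]
      rw [real_inner_comm, h1]
  rw [this, zero_smul]

lemma Cii (hL : LW q C τ) {x : E q} {e : Fin (q + 1) → E q} (h : AF C x e) (i : Fin (q + 1)) :
    C x (e i) (e i) = lam C x (e i) • e i := by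
  have h2 : C x (e i) (e i) - lam C x (e i) • e i = 0 := by
    apply ext0 h
    · rw [inner_sub_left, inner_smul_left, hL.symm x h.x0, hL.comm12 x h.x0, hL.rad x h.x0,
        real_inner_comm x, h.rad i]
      simp
    · intro j
      rw [inner_sub_left, inner_smul_left, h.on i j]
      by_cases hij : i = j
      · subst hij
        simp [lam]
      · rw [hL.symm x h.x0, h.diag i j hij]
        simp [hij]
  exact sub_eq_zero.1 h2

theorem str : S_STR := by
  intro q C τ hL x₀ e he hAF hne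
  have hA : AF C x₀ (e x₀) := hAF.self_of_nhds
  have hx0 := hA.x0
  have hnear : ∀ᶠ x in 𝓝 x₀, x ≠ (0 : E q) := isOpen_ne.mem_nhds hx0
  have hDe : HasFDerivAt e (fderiv ℝ e x₀) x₀ :=
    (he.differentiableAt (by simp)).hasFDerivAt
  have hCd : HasFDerivAt C (fderiv ℝ C x₀) x₀ :=
    ((hL.smooth x₀ hx0).differentiableAt (by simp)).hasFDerivAt
  set De := fderiv ℝ e x₀ with hDedef
  set K := fderiv ℝ C x₀ with hKdef
  have hei : ∀ i, HasFDerivAt (fun x => e x i) ((ContinuousLinearMap.proj i).comp De) x₀ := by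
    intro i
    exact (hasFDerivAt_pi'.1 hDe) i
  -- F1
  have F1 : ∀ v i j, ⟪De v i, e x₀ j⟫_ℝ + ⟪e x₀ i, De v j⟫_ℝ = 0 := by
    intro v i j
    have h1 := (hei i).inner ℝ (hei j)
    have h2 : (fun x => ⟪e x i, e x j⟫_ℝ) =ᶠ[𝓝 x₀] (fun _ => if i = j then (1:ℝ) else 0) := by
      filter_upwards [hAF] with x hx using hx.on i j
    have h3 := h1.unique ((hasFDerivAt_const (if i = j then (1:ℝ) else 0) x₀).congr_of_eventuallyEq h2)
    have h4 := congrArg (fun L => L v) h3
    simp only [ContinuousLinearMap.comp_apply, fderivInnerCLM_apply, ContinuousLinearMap.prod_apply,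
      ContinuousLinearMap.proj_apply, ContinuousLinearMap.zero_apply] at h4
    linarith
  have F1' : ∀ v i, ⟪De v i, e x₀ i⟫_ℝ = 0 := by
    intro v i
    have := F1 v i i
    rw [real_inner_comm (De v i)] at this
    linarith
  -- F2
  have F2 : ∀ v i, ⟪v, e x₀ i⟫_ℝ + ⟪x₀, De v i⟫_ℝ = 0 := by
    intro v i
    have h1 := (hasFDerivAt_id (𝕜 := ℝ) x₀).inner ℝ (hei i)
    have h2 : (fun x => ⟪id x, e x i⟫_ℝ) =ᶠ[𝓝 x₀] (fun _ => (0:ℝ)) := by
      filter_upwards [hAF] with x hx using hx.rad i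
    have h3 := h1.unique ((hasFDerivAt_const (0:ℝ) x₀).congr_of_eventuallyEq h2)
    have h4 := congrArg (fun L => L v) h3
    simp only [ContinuousLinearMap.comp_apply, fderivInnerCLM_apply, ContinuousLinearMap.prod_apply,
      ContinuousLinearMap.proj_apply, ContinuousLinearMap.zero_apply, id,
      ContinuousLinearMap.id_apply] at h4
    linarith
  -- symmetry of K
  have hKab : ∀ a b, ∃ L : E q →L[ℝ] E q, HasFDerivAt (fun x => C x a b) L x₀ ∧
      ∀ v, L v = K v a b := by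
    intro a b
    have h1 := (hCd.clm_apply (hasFDerivAt_const (𝕜 := ℝ) a x₀)).clm_apply
      (hasFDerivAt_const (𝕜 := ℝ) b x₀)
    refine ⟨_, h1, fun v => ?_⟩
    simp
  have K23 : ∀ v a b, K v a b = K v b a := by
    intro v a b
    obtain ⟨L1, hL1, hv1⟩ := hKab a b
    obtain ⟨L2, hL2, hv2⟩ := hKab b a
    have h2 : (fun x => C x a b) =ᶠ[𝓝 x₀] (fun x => C x b a) := by
      filter_upwards [hnear] with x hx using hL.comm12 x hx a b
    have h3 := hL1.unique (hL2.congr_of_eventuallyEq h2)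
    rw [← hv1, ← hv2, h3]
  have K34 : ∀ v a b c, ⟪K v a b, c⟫_ℝ = ⟪K v a c, b⟫_ℝ := by
    intro v a b c
    obtain ⟨L1, hL1, hv1⟩ := hKab a b
    obtain ⟨L2, hL2, hv2⟩ := hKab a c
    have h1 := hL1.inner ℝ (hasFDerivAt_const (𝕜 := ℝ) c x₀)
    have h1' := hL2.inner ℝ (hasFDerivAt_const (𝕜 := ℝ) b x₀)
    have h2 : (fun x => ⟪C x a b, c⟫_ℝ) =ᶠ[𝓝 x₀] (fun x => ⟪C x a c, b⟫_ℝ) := by
      filter_upwards [hnear] with x hx using hL.symm x hx a b c
    have h3 := h1.unique (h1'.congr_of_eventuallyEq h2)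
    have h4 := congrArg (fun L => L v) h3
    simp only [ContinuousLinearMap.comp_apply, fderivInnerCLM_apply, ContinuousLinearMap.prod_apply,
      ContinuousLinearMap.zero_apply, inner_zero_right, zero_add] at h4
    rw [← hv1, ← hv2, h4]
  have K12 : ∀ u v, K u v = K v u := fun u v => hL.cod x₀ hx0 u v
  have C23 : ∀ a b c, ⟪C x₀ a b, c⟫_ℝ = ⟪C x₀ a c, b⟫_ℝ := fun a b c => hL.symm x₀ hx0 a b c
  have C12 : ∀ a b, C x₀ a b = C x₀ b a := fun a b => hL.comm12 x₀ hx0 a b
  -- derivative of `C x (e x i) (e x j)`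
  have hCe : ∀ i, HasFDerivAt (fun x => C x (e x i))
      ((C x₀).comp ((ContinuousLinearMap.proj i).comp De) + K.flip (e x₀ i)) x₀ :=
    fun i => hCd.clm_apply (hei i)
  have hCee : ∀ i j, HasFDerivAt (fun x => C x (e x i) (e x j))
      ((C x₀ (e x₀ i)).comp ((ContinuousLinearMap.proj j).comp De) +
        ((C x₀).comp ((ContinuousLinearMap.proj i).comp De) + K.flip (e x₀ i)).flip (e x₀ j)) x₀ :=
    fun i j => (hCe i).clm_apply (hei j)
  have hoff : ∀ v i j, i ≠ j → C x₀ (e x₀ i) (De v j) + (C x₀ (De v i) (e x₀ j) +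
      K v (e x₀ i) (e x₀ j)) = 0 := by
    intro v i j hij
    have h2 : (fun x => C x (e x i) (e x j)) =ᶠ[𝓝 x₀] (fun _ => (0 : E q)) := by
      filter_upwards [hAF] with x hx using hx.diag i j hij
    have h3 := (hCee i j).unique ((hasFDerivAt_const (0 : E q) x₀).congr_of_eventuallyEq h2)
    have h4 := congrArg (fun L => L v) h3
    simpa using h4
  have hKijk : ∀ v i j k, i ≠ j → ⟪K v (e x₀ i) (e x₀ j), e x₀ k⟫_ℝ =
      -⟪C x₀ (e x₀ j) (e x₀ k), De v i⟫_ℝ - ⟪C x₀ (e x₀ i) (e x₀ k), De v j⟫_ℝ := by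
    intro v i j k hij
    have h1 := hoff v i j hij
    have h2 := congrArg (fun w => ⟪w, e x₀ k⟫_ℝ) h1
    simp only [inner_add_left, inner_zero_left] at h2
    rw [C12 (De v i), C23 (e x₀ i) (De v j), C23 (e x₀ j) (De v i)] at h2
    linarith
  -- (b)
  have hb : ∀ v i j, i ≠ j → ⟪K v (e x₀ i) (e x₀ j), e x₀ i⟫_ℝ =
      lam C x₀ (e x₀ i) * ⟪De v i, e x₀ j⟫_ℝ := by
    intro v i j hij
    rw [hKijk v i j i hij, hA.diag j i (Ne.symm hij), Cii hL hA i, inner_smul_left]
    have := F1 v i j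
    simp only [inner_zero_left, conj_trivial]
    linear_combination (- lam C x₀ (e x₀ i)) * this
  -- (c)
  have hc : ∀ v i j k, i ≠ j → j ≠ k → i ≠ k → ⟪K v (e x₀ i) (e x₀ j), e x₀ k⟫_ℝ = 0 := by
    intro v i j k hij hjk hik
    rw [hKijk v i j k hij, hA.diag j k hjk, hA.diag i k hik]
    simp
  -- (a)
  have ha : ∀ v i, fderiv ℝ (fun x => lam C x (e x i)) x₀ v =
      ⟪K v (e x₀ i) (e x₀ i), e x₀ i⟫_ℝ := by
    intro v i
    have h1 : HasFDerivAt (fun x => lam C x (e x i)) _ x₀ := (hCee i i).inner ℝ (hei i)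
    rw [h1.fderiv]
    simp only [ContinuousLinearMap.comp_apply, fderivInnerCLM_apply, ContinuousLinearMap.prod_apply,
      ContinuousLinearMap.proj_apply, ContinuousLinearMap.add_apply, ContinuousLinearMap.flip_apply,
      inner_add_left]
    have e1 : ⟪C x₀ (e x₀ i) (e x₀ i), De v i⟫_ℝ = 0 := by
      rw [Cii hL hA i, inner_smul_left, real_inner_comm, F1' v i, mul_zero]
    rw [C12 (De v i), C23 (e x₀ i) (De v i), e1]
    ring
  have hlm : ∀ l : Fin q, ⟪K (e x₀ 0) (e x₀ l.succ) (e x₀ l.succ), e x₀ l.succ⟫_ℝ =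
      lam C x₀ (e x₀ l.succ) ^ 2 * bb C x₀ (e x₀) l := by
    intro l
    have := hne l
    unfold bb dlam
    field_simp
    rfl
  -- w_0l (e_l)
  have w1 : ∀ l : Fin q, ⟪De (e x₀ l.succ) 0, e x₀ l.succ⟫_ℝ =
      -(lam C x₀ (e x₀ l.succ) * bb C x₀ (e x₀) l) := by
    intro l
    have h1 := hb (e x₀ l.succ) l.succ 0 (Fin.succ_ne_zero l)
    have h2 := hlm l
    rw [K12 (e x₀ 0) (e x₀ l.succ), K23 (e x₀ l.succ) (e x₀ 0)] at h2
    rw [h2] at h1
    have h3 := F1 (e x₀ l.succ) l.succ 0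
    rw [real_inner_comm (De (e x₀ l.succ) 0)] at h3
    have h4 := hne l
    apply mul_left_cancel₀ h4
    have h5 : ⟪De (e x₀ l.succ) 0, e x₀ l.succ⟫_ℝ = - ⟪De (e x₀ l.succ) l.succ, e x₀ 0⟫_ℝ := by
      linarith
    rw [h5]
    linear_combination h1
  have w2 : ∀ l : Fin q, ⟪De (e x₀ 0) l.succ, e x₀ 0⟫_ℝ =
      -(lam C x₀ (e x₀ 0) * bb C x₀ (e x₀) l) := by
    intro l
    have h1 := hb (e x₀ 0) l.succ 0 (Fin.succ_ne_zero l)
    have h2 := hb (e x₀ l.succ) 0 l.succ (Fin.succ_ne_zero l).symm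
    rw [K12 (e x₀ 0) (e x₀ l.succ), K34 (e x₀ l.succ) (e x₀ 0) (e x₀ 0) (e x₀ l.succ)] at h1
    rw [h1, w1 l] at h2
    apply mul_left_cancel₀ (hne l)
    linear_combination h2
  have w3 : ∀ l m : Fin q, l ≠ m → ⟪De (e x₀ 0) l.succ, e x₀ m.succ⟫_ℝ = 0 := by
    intro l m hlm'
    have hlm2 : l.succ ≠ m.succ := fun h => hlm' (Fin.succ_injective _ h)
    have h1 := hb (e x₀ 0) l.succ m.succ hlm2
    rw [K12 (e x₀ 0) (e x₀ l.succ), hc (e x₀ l.succ) 0 m.succ l.succ (Fin.succ_ne_zero m).symm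
      (Ne.symm hlm2) (Fin.succ_ne_zero l).symm] at h1
    rcases mul_eq_zero.1 h1.symm with h | h
    · exact absurd h (hne l)
    · exact h
  refine ⟨?_, w1, fun l => by rw [ha, hlm]⟩
  funext i
  refine Fin.cases ?_ (fun l => ?_) i
  · -- `e_0`
    apply sub_eq_zero.1
    have hv : v2 C x₀ (e x₀) 0 = -(‖x₀‖ ^ 2)⁻¹ • x₀ +
        lam C x₀ (e x₀ 0) • ∑ l : Fin q, bb C x₀ (e x₀) l • e x₀ l.succ := by
      simp [v2]
    rw [hv]
    apply ext0 hA
    · rw [inner_sub_left, inner_add_left, inner_smul_left, inner_smul_left, sum_inner]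
      have h1 : ∀ l : Fin q, ⟪bb C x₀ (e x₀) l • e x₀ l.succ, x₀⟫_ℝ = 0 := by
        intro l
        rw [inner_smul_left, real_inner_comm, hA.rad, mul_zero]
      simp only [h1, Finset.sum_const_zero, mul_zero, add_zero, conj_trivial]
      have h2 := F2 (e x₀ 0) 0
      rw [hA.on 0 0, real_inner_comm] at h2
      simp only [if_true] at h2
      rw [real_inner_self_eq_norm_sq]
      have : ‖x₀‖ ^ 2 ≠ 0 := pow_ne_zero 2 (norm_ne_zero_iff.2 hx0)
      rw [neg_mul, inv_mul_cancel₀ this]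
      linarith
    · intro j
      rw [inner_sub_left, inner_add_left, inner_smul_left, inner_smul_left, sum_inner, hA.rad,
        mul_zero, zero_add]
      refine Fin.cases ?_ (fun m => ?_) j
      · have h1 : ∀ l : Fin q, ⟪bb C x₀ (e x₀) l • e x₀ l.succ, e x₀ 0⟫_ℝ = 0 := by
          intro l
          rw [inner_smul_left, hA.on, if_neg (Fin.succ_ne_zero l), mul_zero]
        simp only [h1, Finset.sum_const_zero, mul_zero, sub_zero]
        exact F1' _ 0
      · have h1 : ∀ l : Fin q, ⟪bb C x₀ (e x₀) l • e x₀ l.succ, e x₀ m.succ⟫_ℝ =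
            if l = m then bb C x₀ (e x₀) l else 0 := by
          intro l
          rw [inner_smul_left, hA.on]
          by_cases hlm' : l = m
          · subst hlm'; simp
          · rw [if_neg (fun h => hlm' (Fin.succ_injective _ h)), if_neg hlm', mul_zero]
        simp only [h1, Finset.sum_ite_eq', Finset.mem_univ, if_true, conj_trivial]
        have h2 := F1 (e x₀ 0) 0 m.succ
        rw [real_inner_comm (De (e x₀ 0) m.succ), w2 m] at h2
        linarith
  · -- `e_l`
    apply sub_eq_zero.1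
    have hv : v2 C x₀ (e x₀) l.succ = -(lam C x₀ (e x₀ 0) * bb C x₀ (e x₀) l) • e x₀ 0 := by
      simp [v2]
    rw [hv]
    apply ext0 hA
    · rw [inner_sub_left, inner_smul_left, real_inner_comm x₀ (e x₀ 0), hA.rad, mul_zero, sub_zero]
      have h2 := F2 (e x₀ 0) l.succ
      rw [hA.on, if_neg (Fin.succ_ne_zero l).symm, real_inner_comm] at h2
      linarith
    · intro j
      rw [inner_sub_left, inner_smul_left, hA.on]
      refine Fin.cases ?_ (fun m => ?_) j
      · rw [w2 l]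
        simp
      · rw [if_neg (Fin.succ_ne_zero m).symm]
        by_cases hlm' : l = m
        · subst hlm'
          rw [F1']; simp
        · rw [w3 l m hlm']; simp

end Pool.Agent.W137.LG
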